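import Pool.Agent.Helper44.TOT.Defs

/-! TOT-T7: type C (one large prime factor with a slightly larger level) -/

set_option autoImplicit false

namespace Pool.Agent.Helper8.TOT

open Pool.Agent.Helper44.TOT

namespace TypeCAux

theorem tele {w h : ℝ} (hh : 0 ≤ h) (hw : h ≤ w) :
    h * ((1 + w) * Real.exp (-w)) ≤
      (2 + (w - h)) * Real.exp (-(w - h)) - (2 + w) * Real.exp (-w) := by
  have h1 : Real.exp (-(w - h)) = Real.exp (-w) * Real.exp h := by
    rw [← Real.exp_add]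
    congr 1
    ring
  have h2 : 1 + h + h ^ 2 / 2 ≤ Real.exp h := Real.quadratic_le_exp_of_nonneg hh
  have h3 := Real.exp_pos (-w)
  rw [h1]
  have h4 : h * (1 + w) + (2 + w) ≤ (2 + (w - h)) * Real.exp h := by
    have h5 : (2 + (w - h)) * (1 + h + h ^ 2 / 2) ≤ (2 + (w - h)) * Real.exp h :=
      mul_le_mul_of_nonneg_left h2 (by linarith only [hw])
    have h6 : 0 ≤ h ^ 2 * (w - h) := mul_nonneg (sq_nonneg h) (sub_nonneg.2 hw)
    linarith only [h5, h6]
  nlinarith only [h3, h4]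

theorem tele_sum {W h : ℝ} (hh : 0 ≤ h) (hW : 0 ≤ W) (k : ℕ) :
    h * ∑ i ∈ Finset.range k, (1 + (W + ((i : ℝ) + 1) * h)) * Real.exp (-(W + ((i : ℝ) + 1) * h)) ≤
      (2 + W) * Real.exp (-W) - (2 + (W + k * h)) * Real.exp (-(W + k * h)) := by
  induction k with
  | zero => simp
  | succ k ih =>
    rw [Finset.sum_range_succ, mul_add]
    have h1 := tele (w := W + ((k : ℝ) + 1) * h) hh
      (by linarith only [hW, hh, mul_nonneg (Nat.cast_nonneg (α := ℝ) k) hh])
    have h2 : W + ((k : ℝ) + 1) * h - h = W + k * h := by ring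
    rw [h2] at h1
    push_cast
    linarith only [ih, h1]

theorem sum_f {W h : ℝ} (hh : 0 < h) (hW : 0 ≤ W) (n : ℕ) :
    ∑ i ∈ Finset.range n, (1 + (W + (i : ℝ) * h)) * Real.exp (-(W + (i : ℝ) * h)) ≤
      (1 + W) * Real.exp (-W) + (2 + W) * Real.exp (-W) / h := by
  have hpos : 0 ≤ (2 + W) * Real.exp (-W) / h := by positivity
  have hpos' : 0 ≤ (1 + W) * Real.exp (-W) := by positivity
  cases n with
  | zero =>
    rw [Finset.range_zero, Finset.sum_empty]
    linarith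
  | succ k =>
    rw [Finset.sum_range_succ']
    have h1 := tele_sum hh.le hW k
    have h2 : 0 ≤ (2 + (W + k * h)) * Real.exp (-(W + k * h)) := by positivity
    have h3 : ∑ i ∈ Finset.range k, (1 + (W + ((i : ℝ) + 1) * h)) *
        Real.exp (-(W + ((i : ℝ) + 1) * h)) ≤ (2 + W) * Real.exp (-W) / h := by
      rw [le_div_iff₀ hh]
      linarith
    push_cast
    simp only [zero_mul, add_zero]
    linarith

/-- the quantities involving `x` only -/
theorem exists_X0 (a A' : ℕ) : ∃ X0 : ℕ, ∀ x : ℕ, X0 ≤ x →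
    1 ≤ ll x ∧ (1000 + 1000 * (a : ℝ)) * ((ll x) ^ A') ^ 3 ≤ Real.log x := by
  have h1 : Filter.Tendsto (fun x : ℕ => ll x) Filter.atTop Filter.atTop :=
    Real.tendsto_log_atTop.comp (Real.tendsto_log_atTop.comp tendsto_natCast_atTop_atTop)
  have h2 : ∀ᶠ s : ℝ in Filter.atTop,
      (1000 + 1000 * (a : ℝ)) * (s ^ A') ^ 3 ≤ Real.exp s := by
    have h3 : (fun s : ℝ => s ^ (A' * 3)) =o[Filter.atTop] Real.exp := Real.isLittleO_pow_exp_atTop
    have hc : (0 : ℝ) < 1 / (1000 + 1000 * (a : ℝ)) := by positivity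
    filter_upwards [h3.bound hc, Filter.eventually_ge_atTop 0] with s hs hs0
    rw [Real.norm_eq_abs, Real.norm_eq_abs, abs_of_nonneg (pow_nonneg hs0 _),
      abs_of_pos (Real.exp_pos s), one_div, ← div_eq_inv_mul, le_div_iff₀ (by positivity)] at hs
    rw [← pow_mul]
    linarith only [hs]
  have h4 := (h1.eventually (h2.and (Filter.eventually_ge_atTop 1)))
  obtain ⟨X0, hX0⟩ := Filter.eventually_atTop.1 h4
  refine ⟨max X0 3, fun x hx => ?_⟩
  obtain ⟨h5, h6⟩ := hX0 x (le_trans (le_max_left _ _) hx)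
  refine ⟨h6, ?_⟩
  have h7 : (3 : ℝ) ≤ x := by exact_mod_cast le_trans (le_max_right _ _) hx
  have h8 : 0 < Real.log x := Real.log_pos (by linarith)
  unfold ll at h5 ⊢
  rwa [Real.exp_log h8] at h5

/-- the elementary inequality behind the exponent -/
theorem rpow_ge {r : ℝ} (hr : 12 / 25 ≤ r) (hr1 : r ≤ 1) :
    1 - (1 - r) / 12 ≤ r ^ ((1 : ℝ) / 25) := by
  have hr0 : 0 < r := by linarith
  rw [Real.rpow_def_of_pos hr0]
  have h1 := Real.add_one_le_exp (Real.log r * (1 / 25))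
  have h2 := Real.one_sub_inv_le_log_of_pos hr0
  have h3 : -((1 - r) / (12 / 25)) ≤ 1 - r⁻¹ := by
    have h4 : 1 - r⁻¹ = -((1 - r) / r) := by
      field_simp
      ring
    rw [h4, neg_le_neg_iff]
    exact div_le_div_of_nonneg_left (by linarith only [hr1]) (by norm_num) hr
  have h5 : (1 - r) / (12 / 25) = (1 - r) * (25 / 12) := by ring
  rw [h5] at h3
  linarith only [h1, h2, h3]

theorem level {z δ v ζ r : ℝ} (hz : 1 ≤ z) (hδ : 0 < δ) (hv : 0 ≤ v)
    (hv' : v ≤ 1 / 2) (hζ : 0 ≤ ζ) (hζ' : ζ ≤ 1 / 50) (hzζ : z * ζ ≤ δ) (hδ1 : δ ≤ 1 / 100)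
    (hr : 1 - v - ζ ≤ r) (hr1 : r ≤ 1) :
    z * (1 + v / 3) - 3 * δ ≤ (z * (1 + v / 2) - 2 * δ) * r ^ ((1 : ℝ) / 25) := by
  have h1 := rpow_ge (r := r) (by linarith) hr1
  have h2 : 1 - (v + ζ) / 12 ≤ r ^ ((1 : ℝ) / 25) := by linarith
  have h3 : 0 ≤ z * (1 + v / 2) - 2 * δ := by nlinarith only [hz, hδ, hv, hδ1]
  have h4 : (z * (1 + v / 2) - 2 * δ) * (1 - (v + ζ) / 12) ≤
      (z * (1 + v / 2) - 2 * δ) * r ^ ((1 : ℝ) / 25) := mul_le_mul_of_nonneg_left h2 h3
  have h5 : 1 + v / 3 - ζ ≤ (1 + v / 2) * (1 - (v + ζ) / 12) := by nlinarith only [hv, hζ, hv', hζ']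
  have h6 : z * (1 + v / 3 - ζ) ≤ z * ((1 + v / 2) * (1 - (v + ζ) / 12)) :=
    mul_le_mul_of_nonneg_left h5 (by linarith only [hz, hδ, hδ1])
  have h7 : 0 ≤ 2 * δ * ((v + ζ) / 12) := by positivity
  linarith only [hzζ, h4, h6, h7]

theorem expo {a : ℕ} {z δ v t : ℝ} (ha : 2 ≤ a) (hz : 1 ≤ z) (hδ : 0 < δ) (hv : 0 ≤ v)
    (hv' : v ≤ 1 / 2) (hδ' : δ ≤ 1 / (100 * a * (4 * z) ^ a))
    (ht : z * (1 + v / 3) - 3 * δ ≤ t) :
    z ^ a * (1 + a * v / 3) - 3 / 100 ≤ t ^ a := by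
  have ha' : (2 : ℝ) ≤ a := by exact_mod_cast ha
  have h4z : 1 ≤ (4 * z) ^ a := one_le_pow₀ (by linarith only [hz])
  have hδa : a * δ * (4 * z) ^ a ≤ 1 / 100 := by
    rw [le_div_iff₀ (by positivity)] at hδ'
    linarith only [hδ']
  have hδa1 : a * δ ≤ 1 / 100 := by
    have : a * δ * 1 ≤ a * δ * (4 * z) ^ a := mul_le_mul_of_nonneg_left h4z (by positivity)
    linarith only [hδa, this]
  have hδ2 : δ ≤ 1 / 200 := by nlinarith only [hδa1, hδ, ha']
  set Z := z * (1 + v / 3) with hZ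
  have hZ1 : 1 ≤ Z := by
    rw [hZ]
    nlinarith only [hz, hv]
  have hZ4 : Z ≤ 4 * z := by
    rw [hZ]
    nlinarith only [hz, hδ, hv', hδ2]
  have h1 : Z * (1 - 3 * δ) ≤ t := by nlinarith only [ht, hδ, hZ1]
  have h2 : (Z * (1 - 3 * δ)) ^ a ≤ t ^ a :=
    pow_le_pow_left₀ (mul_nonneg (by linarith only [hδ, hδ2, hZ1]) (by linarith only [hδ, hδ2])) h1 a
  have h3 : 1 + (a : ℝ) * (-(3 * δ)) ≤ (1 + (-(3 * δ))) ^ a :=
    one_add_mul_le_pow (by linarith only [hδ, hδ2]) a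
  have h4 : 1 + (a : ℝ) * (v / 3) ≤ (1 + v / 3) ^ a :=
    one_add_mul_le_pow (by linarith only [hδ, hv, hδ2]) a
  have hZa : Z ^ a = z ^ a * (1 + v / 3) ^ a := by rw [hZ, mul_pow]
  have hza : 0 ≤ z ^ a := by positivity
  have hZ4a : Z ^ a ≤ (4 * z) ^ a := pow_le_pow_left₀ (by linarith only [hδ, hδ2, hZ1]) hZ4 a
  have hZa0 : 0 ≤ Z ^ a := by positivity
  calc z ^ a * (1 + a * v / 3) - 3 / 100 ≤ Z ^ a - 3 / 100 := by
        rw [hZa]
        have : z ^ a * (1 + a * v / 3) ≤ z ^ a * (1 + v / 3) ^ a :=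
          mul_le_mul_of_nonneg_left (by linarith only [h4]) hza
        linarith only [this]
    _ ≤ Z ^ a * (1 - 3 * (a * δ)) := by
        have : Z ^ a * (a * δ) ≤ (4 * z) ^ a * (a * δ) :=
          mul_le_mul_of_nonneg_right hZ4a (by positivity)
        linarith only [hδa, this]
    _ ≤ Z ^ a * (1 + (-(3 * δ))) ^ a := mul_le_mul_of_nonneg_left (by linarith) hZa0
    _ = (Z * (1 - 3 * δ)) ^ a := by
        rw [← mul_pow]
        congr 1
    _ ≤ t ^ a := h2

/-- the bound for one dyadic block `(M', 2M']` of values of `m` -/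
theorem perM {a : ℕ} {C0 ρ ι : ℝ} (hc : Cst a C0 ρ ι) (cov : Cover3) {A A' C x M1 : ℕ}
    {N : Finset ℕ} {X D uB : ℝ} {b : ℕ → ℝ} {z δ : ℝ}
    (H : TH x A A' C M1 N X D a C0 ρ ι uB b z δ)
    (hs : 1 ≤ ll x) (hL : (1000 + 1000 * (a : ℝ)) * ((ll x) ^ A') ^ 3 ≤ Real.log x)
    {M' m0 : ℕ} (hm0 : M' < m0) (hm0' : m0 ≤ 2 * M') (hM1 : M1 < m0) (hm0x : m0 * m0 ≤ x)
    {S : Finset ℕ} (hS : S ⊆ N)
    (h : ∀ n ∈ S, ∃ m q : ℕ, q.Prime ∧ n = m * q ∧ M' < m ∧ m ≤ 2 * M' ∧
      z * (1 + (Real.log m / Real.log x) / 2) - 2 * δ ≤ b q) :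
    (S.card : ℝ) ≤ D * (10 * C0) * (X / Real.log x) *
      ((1 + z ^ a * (1 + a * (Real.log M' / Real.log x) / 3)) *
        Real.exp (-(z ^ a * (1 + a * (Real.log M' / Real.log x) / 3)))) := by
  have ha : (2 : ℝ) ≤ a := by exact_mod_cast hc.ha
  have hC0 := hc.hC0
  have hz := H.hz
  have hδ := H.hδ
  set K : ℝ := (ll x) ^ A' with hK
  set L : ℝ := Real.log x with hLdef
  have hK1 : 1 ≤ K := one_le_pow₀ hs
  have hK3 : K ≤ K ^ 3 := le_self_pow₀ hK1 (by norm_num)
  have hK2 : K ^ 2 ≤ K ^ 3 := pow_le_pow_right₀ hK1 (by norm_num)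
  have haK : 0 ≤ (a : ℝ) * K ^ 3 := by positivity
  have hLK : 1000 * K ^ 3 ≤ L := by linarith only [hL, haK]
  have hL0 : 0 < L := by linarith only [hL, hK1, hK3, haK]
  have hx1 : (1 : ℝ) < x := by
    by_contra hcon
    push Not at hcon
    have := Real.log_nonpos (Nat.cast_nonneg x) hcon
    linarith only [hL, hK1, hK3, haK, this]
  have hx0 : (0 : ℝ) < x := by linarith
  -- sizes
  have hza1 : 1 ≤ z ^ a := one_le_pow₀ hz
  have hzK : z ≤ K := by
    have h1 := H.hzA'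
    have h2 : z ≤ z ^ a := le_self_pow₀ hz (by have := hc.ha; omega)
    have h3 : 0 ≤ (a : ℝ) * z ^ a := by positivity
    linarith only [h1, h2, h3]
  have h4z : 1 ≤ (4 * z) ^ a := one_le_pow₀ (by linarith only [hz])
  have hδ1 : δ ≤ 1 / 200 := by
    have h1 := H.hδ'
    rw [le_div_iff₀ (by positivity)] at h1
    have h3 : (2 : ℝ) * 1 ≤ a * (4 * z) ^ a := mul_le_mul ha h4z (by norm_num) (by positivity)
    have h2 : 200 ≤ 100 * (a : ℝ) * (4 * z) ^ a := by linarith only [h3]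
    rw [le_div_iff₀ (by norm_num)]
    exact (mul_le_mul_of_nonneg_left h2 hδ.le).trans h1
  have hM1e := H.M1ge
  have hexp1 : (2 : ℝ) < Real.exp 1 := by
    have := Real.add_one_lt_exp (x := 1) (by norm_num)
    linarith only [this]
  have hM12 : 2 < M1 := by
    have : (2 : ℝ) < M1 := by linarith only [hM1e, hexp1]
    exact_mod_cast this
  have hM'2 : 2 ≤ M' := by omega
  have hM'2r : (2 : ℝ) ≤ M' := by exact_mod_cast hM'2
  have hm0r : (M' : ℝ) ≤ m0 := by exact_mod_cast hm0.le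
  have hm0pos : (0 : ℝ) < m0 := by linarith only [hδ, hδ1, hM'2r, hm0r]
  set v : ℝ := Real.log M' / L with hv
  have hlogM' : 0 ≤ Real.log M' := Real.log_nonneg (by linarith only [hδ, hδ1, hM'2r])
  have hv0 : 0 ≤ v := div_nonneg hlogM' hL0.le
  have hlogm0 : Real.log m0 ≤ L / 2 := by
    have h1 : (m0 : ℝ) * m0 ≤ x := by exact_mod_cast hm0x
    have h2 := Real.log_le_log (by positivity) h1
    rw [Real.log_mul hm0pos.ne' hm0pos.ne'] at h2
    linarith only [h2]
  have hlogM'2 : Real.log M' ≤ L / 2 :=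
    (Real.log_le_log (by linarith only [hδ, hδ1, hM'2r]) hm0r).trans hlogm0
  have hv2 : v ≤ 1 / 2 := by
    rw [hv, div_le_iff₀ hL0]
    linarith only [hlogM'2]
  have hvL : v * L = Real.log M' := by
    rw [hv]
    field_simp
  set ζ : ℝ := (K + 3) / L with hζ
  have hζ0 : 0 ≤ ζ := by positivity
  have hζL : ζ * L = K + 3 := by
    rw [hζ]
    field_simp
  have hζ1 : ζ ≤ 1 / 50 := by
    rw [hζ, div_le_iff₀ hL0]
    linarith only [hδ, hL, hK1, hK3, haK, hδ1]
  have hzζ : z * ζ ≤ δ := by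
    have h1 : z * ζ ≤ 1 / K := by
      rw [hζ, ← mul_div_assoc, div_le_div_iff₀ hL0 (by linarith only [hδ, hK1, hδ1])]
      have h2 : z * (K + 3) ≤ K * (4 * K) :=
        mul_le_mul hzK (by linarith only [hK1]) (by linarith only [hδ, hK1, hδ1]) (by linarith only [hδ, hK1, hδ1])
      have h3 : z * (K + 3) * K ≤ K * (4 * K) * K :=
        mul_le_mul_of_nonneg_right h2 (by linarith only [hδ, hK1, hδ1])
      linarith only [hδ, hL, hK1, hK3, haK, hδ1, h3]
    exact h1.trans H.hδA'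
  -- the size of `X`
  have hX := H.leX
  have hXpos : 0 < X := lt_of_lt_of_le (by positivity) hX
  have hlogX : L - K ≤ Real.log X := by
    have h1 := Real.log_le_log (by positivity) hX
    rw [Real.log_mul hx0.ne' (Real.exp_pos _).ne', Real.log_exp] at h1
    linarith only [h1]
  set Y : ℝ := X / (2 * M') with hY
  have hYpos : 0 < Y := by positivity
  have hlogY : L - K - Real.log 2 - v * L ≤ Real.log Y := by
    rw [hY, Real.log_div hXpos.ne' (by positivity), Real.log_mul (by norm_num) (by positivity)]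
    linarith only [hvL, hlogX]
  have hlog2 : Real.log 2 ≤ 0.6931471808 := Real.log_two_lt_d9.le
  have hlog2' : 0.6931471803 ≤ Real.log 2 := Real.log_two_gt_d9.le
  have hY8 : 20 ≤ Y := by
    have h1 : Real.log 20 ≤ Real.log Y := by
      have h2 : Real.log 20 ≤ 20 := (Real.log_le_sub_one_of_pos (by norm_num)).trans (by norm_num)
      have h3 : v * L ≤ L / 2 := by linarith only [hlogM'2, hvL]
      linarith only [hδ, hL, hK1, hK3, haK, hδ1, hlogM'2, hvL, hlogY, hlog2, h2]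
    exact (Real.log_le_log_iff (by norm_num) hYpos).1 h1
  -- the level
  set β : ℝ := z * (1 + v / 2) - 2 * δ with hβ
  have hβ0 : 0 < β := by
    rw [hβ]
    have : 0 ≤ z * v := mul_nonneg (by linarith only [hz, hδ, hδ1]) hv0
    linarith only [hz, hδ, hδ1, this]
  set w : ℝ := z ^ a * (1 + a * v / 3) with hw
  have hw1 : z ^ a ≤ w := by
    rw [hw]
    have : 0 ≤ z ^ a * (a * v / 3) := by positivity
    linarith only [this]
  have hw0 : 0 ≤ w := by linarith only [hδ, hza1, hδ1, hw1]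
  -- one block
  have blkle : ∀ y : ℕ, Y / 4 ≤ y → (y : ℝ) ≤ 2 * Y →
      (blk (fun q => β ≤ b q) y : ℝ) ≤ C0 * Real.exp (-(w - 3 / 100)) * (y / (2 / 5 * L)) := by
    intro y hy1 hy2
    have hy0 : (0 : ℝ) < y := by linarith only [hδ, hδ1, hY8, hy1]
    have hlog4 : Real.log 4 = 2 * Real.log 2 := by
      rw [show (4 : ℝ) = 2 ^ 2 by norm_num, Real.log_pow]
      norm_num
    have hlogy : (1 - v - ζ) * L ≤ Real.log y := by
      have h1 := Real.log_le_log (by positivity) hy1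
      rw [Real.log_div hYpos.ne' (by norm_num), hlog4] at h1
      linarith only [hδ, hδ1, hζL, hlogY, hlog2, h1]
    have hyx : (y : ℝ) < x := by
      have h1 : 2 * Y ≤ x / 2 := by
        have h2 : 2 * Y = X / M' := by
          rw [hY]
          field_simp
        rw [h2]
        exact (div_le_div_of_nonneg_right H.Xle (by linarith only [hδ, hδ1, hM'2r])).trans
          (div_le_div_of_nonneg_left hx0.le (by norm_num) hM'2r)
      linarith only [hδ, hδ1, hY8, hy2, h1]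
    have hlogyx : Real.log y ≤ L := Real.log_le_log hy0 hyx.le
    have hlogy2 : 2 / 5 * L ≤ Real.log y := by
      refine le_trans ?_ hlogy
      exact mul_le_mul_of_nonneg_right (by linarith only [hδ, hδ1, hv2, hζ1]) hL0.le
    have hxy : (x : ℝ) ^ ((2 : ℝ) / 5) ≤ y := by
      rw [Real.rpow_def_of_pos hx0, ← Real.le_log_iff_exp_le hy0]
      linarith only [hδ, hL, hK1, hK3, haK, hδ1, hlogM'2, hvL, hζL, hlogy]
    have ht2 := H.tail.t2 y β hxy (by exact_mod_cast hyx) hβ0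
    have hr1 : Real.log y / L ≤ 1 := by
      rw [div_le_one hL0]
      exact hlogyx
    have hr2 : 1 - v - ζ ≤ Real.log y / L := by
      rw [le_div_iff₀ hL0]
      exact hlogy
    have hlev := level hz hδ hv0 hv2 hζ0 hζ1 hzζ (by linarith only [hδ, hδ1]) hr2 hr1
    have hexpo := expo hc.ha hz hδ hv0 hv2 H.hδ' hlev
    have hexp : Real.exp (-((β * (Real.log y / L) ^ ((1 : ℝ) / 25)) ^ a)) ≤
        Real.exp (-(w - 3 / 100)) := Real.exp_le_exp.2 (by linarith only [hw, hexpo])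
    calc (blk (fun q => β ≤ b q) y : ℝ)
        ≤ C0 * Real.exp (-((β * (Real.log y / L) ^ ((1 : ℝ) / 25)) ^ a)) * (y / Real.log y) := ht2
      _ ≤ C0 * Real.exp (-(w - 3 / 100)) * (y / (2 / 5 * L)) := by
          refine mul_le_mul (mul_le_mul_of_nonneg_left hexp (by linarith only [hC0, hδ, hδ1])) ?_ ?_ (by positivity)
          · exact div_le_div_of_nonneg_left hy0.le (by positivity) hlogy2
          · exact div_nonneg hy0.le ((by positivity : (0 : ℝ) ≤ 2 / 5 * L).trans hlogy2)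
  -- the set `E`
  classical
  set E : Finset ℕ := (Finset.Icc 1 ⌊2 * Y⌋₊).filter
    (fun q => q.Prime ∧ Y / 4 < q ∧ β ≤ b q) with hE
  have hEmem : ∀ q ∈ E, q.Prime ∧ β ≤ b q ∧ Y / 4 < q ∧ (q : ℝ) ≤ 2 * Y := by
    intro q hq
    rw [hE, Finset.mem_filter, Finset.mem_Icc] at hq
    exact ⟨hq.2.1, hq.2.2.2, hq.2.2.1, (Nat.le_floor_iff (by positivity)).1 hq.1.2⟩
  have hcov := cov (fun q => β ≤ b q) Y E (by linarith only [hδ, hδ1, hY8]) hEmem
  set y1 : ℕ := ⌊2 * Y⌋₊ with hy1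
  have hy1le : (y1 : ℝ) ≤ 2 * Y := Nat.floor_le (by positivity)
  have hy1gt : 2 * Y < y1 + 1 := Nat.lt_floor_add_one _
  have hy2le : ((y1 / 2 : ℕ) : ℝ) ≤ Y := by
    have h1 : ((y1 / 2 : ℕ) : ℝ) ≤ (y1 : ℝ) / 2 := Nat.cast_div_le
    linarith only [hy1le, h1]
  have hy3le : ((y1 / 4 : ℕ) : ℝ) ≤ Y / 2 := by
    have h1 : ((y1 / 4 : ℕ) : ℝ) ≤ (y1 : ℝ) / 4 := Nat.cast_div_le
    linarith only [hy1le, h1]
  have hy2gt : (y1 : ℝ) / 2 - 1 ≤ ((y1 / 2 : ℕ) : ℝ) := by
    have h1 : y1 ≤ 2 * (y1 / 2) + 1 := by omega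
    have h2 : (y1 : ℝ) ≤ 2 * ((y1 / 2 : ℕ) : ℝ) + 1 := by exact_mod_cast h1
    linarith only [hδ, hδ1, h2]
  have hy3gt : (y1 : ℝ) / 4 - 1 ≤ ((y1 / 4 : ℕ) : ℝ) := by
    have h1 : y1 ≤ 4 * (y1 / 4) + 3 := by omega
    have h2 : (y1 : ℝ) ≤ 4 * ((y1 / 4 : ℕ) : ℝ) + 3 := by exact_mod_cast h1
    linarith only [hδ, hδ1, h2]
  have b1 := blkle y1 (by linarith only [hδ, hδ1, hY8, hy1gt]) hy1le
  have b2 := blkle (y1 / 2) (by linarith only [hδ, hδ1, hY8, hy1gt, hy2gt]) (by linarith only [hδ, hδ1, hY8, hy2le])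
  have b3 := blkle (y1 / 4) (by linarith only [hδ, hδ1, hY8, hy1gt, hy3gt]) (by linarith only [hδ, hδ1, hY8, hy3le])
  have hexp3 : Real.exp (-(w - 3 / 100)) ≤ 8 / 7 * Real.exp (-w) := by
    have h1 : Real.exp (-(w - 3 / 100)) = Real.exp (3 / 100) * Real.exp (-w) := by
      rw [← Real.exp_add]
      congr 1
      ring
    have h2 : Real.exp (3 / 100) ≤ 8 / 7 := by
      have h3 := Real.one_sub_le_exp_neg (3 / 100 : ℝ)
      rw [Real.exp_neg] at h3
      have h4 := Real.exp_pos (3 / 100 : ℝ)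
      rw [← one_div, le_div_iff₀ h4] at h3
      linarith only [hδ, hδ1, h3]
    rw [h1]
    exact mul_le_mul_of_nonneg_right h2 (Real.exp_pos _).le
  have hEcard : (E.card : ℝ) ≤ 10 * C0 * Real.exp (-w) * Y / L := by
    have h1 : (E.card : ℝ) ≤ blk (fun q => β ≤ b q) y1 + blk (fun q => β ≤ b q) (y1 / 2) +
        blk (fun q => β ≤ b q) (y1 / 4) := by exact_mod_cast hcov
    calc (E.card : ℝ) ≤ C0 * Real.exp (-(w - 3 / 100)) *
          ((y1 + (y1 / 2 : ℕ) + (y1 / 4 : ℕ)) / (2 / 5 * L)) := by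
          rw [add_div, add_div, mul_add, mul_add]
          linarith only [b1, b2, b3, h1]
      _ ≤ C0 * (8 / 7 * Real.exp (-w)) * ((7 / 2 * Y) / (2 / 5 * L)) := by
          refine mul_le_mul (mul_le_mul_of_nonneg_left hexp3 (by linarith only [hC0, hδ, hδ1])) ?_
            (by positivity) (by positivity)
          exact div_le_div_of_nonneg_right (by linarith only [hy1le, hy2le, hy3le]) (by positivity)
      _ = 10 * C0 * Real.exp (-w) * Y / L := by
          field_simp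
          ring
  -- the density
  set μ : ℝ := 10 * C0 * Real.exp (-w) with hμ
  have hμ0 : 0 < μ := by positivity
  have hwA : w ≤ (ll x) ^ A := by
    refine le_trans ?_ H.hzA
    rw [hw, mul_comm]
    refine mul_le_mul_of_nonneg_right ?_ (by positivity)
    have : (a : ℝ) * v ≤ a * (1 / 2) := mul_le_mul_of_nonneg_left hv2 (by linarith only [ha, hδ, hδ1])
    linarith only [ha, hδ, hδ1, this]
  have hμA : Real.exp (-(ll x) ^ A) ≤ μ := by
    have h1 : Real.exp (-(ll x) ^ A) ≤ Real.exp (-w) := Real.exp_le_exp.2 (by linarith only [hwA])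
    have h2 : Real.exp (-w) ≤ μ := by
      rw [hμ]
      exact le_mul_of_one_le_left (Real.exp_pos _).le (by linarith only [hC0, hδ, hδ1])
    exact h1.trans h2
  have hlogμ : max 0 (-Real.log μ) ≤ w := by
    refine max_le hw0 ?_
    rw [hμ, Real.log_mul (by positivity) (Real.exp_pos _).ne', Real.log_exp]
    have : 0 ≤ Real.log (10 * C0) := Real.log_nonneg (by linarith only [hC0, hδ, hδ1])
    linarith only [this]
  have hbil := H.adm.bil 1 (2 * M') μ E S (Or.inl rfl) (by omega) ?_ hμA ?_ ?_ hS ?_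
  · refine hbil.trans ?_
    rw [Nat.cast_one, one_mul, hμ]
    have h1 : D * (10 * C0 * Real.exp (-w)) * (1 + max 0 (-Real.log (10 * C0 * Real.exp (-w)))) ≤
        D * (10 * C0 * Real.exp (-w)) * (1 + w) :=
      mul_le_mul_of_nonneg_left (by rw [← hμ]; linarith only [hlogμ])
        (mul_nonneg H.D0 (by positivity))
    calc D * (10 * C0 * Real.exp (-w)) * (1 + max 0 (-Real.log (10 * C0 * Real.exp (-w)))) * X /
          Real.log x ≤ D * (10 * C0 * Real.exp (-w)) * (1 + w) * X / Real.log x := by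
          refine div_le_div_of_nonneg_right ?_ hL0.le
          exact mul_le_mul_of_nonneg_right h1 hXpos.le
      _ = _ := by
          rw [hw]
          ring
  · -- `2 M' ≤ x^{13/20}`
    rw [Nat.cast_one, one_mul]
    have h1 : ((2 * M' : ℕ) : ℝ) = 2 * M' := by push_cast; ring
    rw [h1, Real.rpow_def_of_pos hx0, ← Real.log_le_iff_le_exp (by positivity),
      Real.log_mul (by norm_num) (by positivity)]
    linarith only [hδ, hL, hK1, hK3, haK, hδ1, hlogM'2, hlog2]
  · intro q hq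
    obtain ⟨h1, h2, h3, h4⟩ := hEmem q hq
    refine ⟨h1, ?_, ?_⟩
    · refine lt_of_eq_of_lt ?_ h3
      rw [hY]
      push_cast
      field_simp
    · refine h4.trans_eq ?_
      rw [hY]
      push_cast
      field_simp
  · refine hEcard.trans_eq ?_
    rw [hY]
    push_cast
    ring
  · intro n hn
    obtain ⟨m, q, hq, hnmq, hm1, hm2, hbq⟩ := h n hn
    have hrng := H.adm.rng n (hS hn)
    have hm1r : (M' : ℝ) < m := by exact_mod_cast hm1
    have hm2r : (m : ℝ) ≤ 2 * M' := by exact_mod_cast hm2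
    have hq0 : (0 : ℝ) < q := by exact_mod_cast hq.pos
    have hnr : (n : ℝ) = m * q := by exact_mod_cast hnmq
    refine ⟨m, q, by omega, hm2, ?_, by rw [hnmq, one_mul]⟩
    have hqle : (q : ℝ) ≤ 2 * Y := by
      have h2 : 2 * Y = X / M' := by
        rw [hY]
        field_simp
      rw [h2, le_div_iff₀ (by linarith only [hδ, hδ1, hM'2r])]
      have h3 : (q : ℝ) * M' ≤ q * m := mul_le_mul_of_nonneg_left hm1r.le hq0.le
      linarith only [hrng, hnr, h3]
    rw [hE, Finset.mem_filter, Finset.mem_Icc]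
    refine ⟨⟨hq.pos, Nat.le_floor hqle⟩, hq, ?_, ?_⟩
    · rw [hY, div_div, div_lt_iff₀ (by positivity)]
      have h3 : (m : ℝ) * q ≤ 2 * M' * q := mul_le_mul_of_nonneg_right hm2r hq0.le
      linarith only [hrng, hnr, h3]
    · refine le_trans ?_ hbq
      rw [hβ]
      have h1 : v ≤ Real.log m / L := by
        rw [hv]
        exact div_le_div_of_nonneg_right (Real.log_le_log (by linarith only [hδ, hδ1, hM'2r]) hm1r.le) hL0.le
      have h2 : z * v ≤ z * (Real.log m / L) := mul_le_mul_of_nonneg_left h1 (by linarith only [hz, hδ, hδ1])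
      linarith only [h2]

theorem final_ineq {a W L D C0 X h : ℝ} (ha : 2 ≤ a) (hW : 1 ≤ W) (hL : 0 < L)
    (haW : (1 + W) * a ≤ L) (hD : 0 ≤ D) (hC0 : 0 ≤ C0) (hX : 0 ≤ X)
    (hh : h = W * a * Real.log 2 / (3 * L)) :
    D * (10 * C0) * (X / L) * ((1 + W) * Real.exp (-W) + (2 + W) * Real.exp (-W) / h) ≤
      D * X * C0 * Real.exp (-W) * (140 / a) := by
  have hlog2 : 0.6931471803 ≤ Real.log 2 := Real.log_two_gt_d9.le
  have hlog0 : 0 < Real.log 2 := by linarith
  have h1 : (2 + W) / h ≤ 13 * L / a := by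
    rw [hh, div_div_eq_mul_div, div_le_div_iff₀ (by positivity) (by positivity)]
    have h2 : (2 + W) * (3 * L) * a ≤ (3 * W) * (3 * L) * a := by
      refine mul_le_mul_of_nonneg_right ?_ (by linarith only [ha])
      exact mul_le_mul_of_nonneg_right (by linarith) (by positivity)
    have h3 : (3 * W) * (3 * L) * a ≤ 13 * L * (W * a * Real.log 2) := by
      have h4 : 9 ≤ 13 * Real.log 2 := by linarith
      have h5 : W * L * a * 9 ≤ W * L * a * (13 * Real.log 2) :=
        mul_le_mul_of_nonneg_left h4 (by positivity)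
      linarith only [h5]
    exact h2.trans h3
  have h2 : (1 + W) ≤ L / a := by
    rw [le_div_iff₀ (by linarith)]
    exact haW
  have h3 : (1 + W) + (2 + W) / h ≤ 14 * L / a := by
    have : 14 * L / a = L / a + 13 * L / a := by ring
    linarith
  have h4 : D * (10 * C0) * (X / L) * Real.exp (-W) * ((1 + W) + (2 + W) / h) ≤
      D * (10 * C0) * (X / L) * Real.exp (-W) * (14 * L / a) :=
    mul_le_mul_of_nonneg_left h3 (by positivity)
  calc D * (10 * C0) * (X / L) * ((1 + W) * Real.exp (-W) + (2 + W) * Real.exp (-W) / h)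
      = D * (10 * C0) * (X / L) * Real.exp (-W) * ((1 + W) + (2 + W) / h) := by ring
    _ ≤ D * (10 * C0) * (X / L) * Real.exp (-W) * (14 * L / a) := h4
    _ = D * X * C0 * Real.exp (-W) * (140 / a) := by
        field_simp
        ring

end TypeCAux

/-- TOT-T7 -/
theorem typeC (cov : Cover3) : TypeC := by
  intro a C0 ρ ι hc A A' C
  obtain ⟨X0, hX0⟩ := TypeCAux.exists_X0 a A'
  refine ⟨X0, ?_⟩
  intro x M1 N X D uB b z δ S hx H hS h
  obtain ⟨hs, hL⟩ := hX0 x hx
  choose! m q hq hn hm1 hm2 hb using h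
  have ha : (2 : ℝ) ≤ a := by exact_mod_cast hc.ha
  have hC0 := hc.hC0
  have hz := H.hz
  have hK1 : 1 ≤ (ll x) ^ A' := one_le_pow₀ hs
  have hK3 : (ll x) ^ A' ≤ ((ll x) ^ A') ^ 3 := le_self_pow₀ hK1 (by norm_num)
  have haK : (a : ℝ) * (ll x) ^ A' ≤ a * ((ll x) ^ A') ^ 3 :=
    mul_le_mul_of_nonneg_left hK3 (by linarith)
  have haK0 : 0 ≤ (a : ℝ) * ((ll x) ^ A') ^ 3 := mul_nonneg (by linarith only [ha]) (by linarith)
  have hL0 : 0 < Real.log x := by linarith only [hL, hK1, hK3, haK0]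
  have hW1 : 1 ≤ z ^ a := one_le_pow₀ hz
  have hWK : z ^ a ≤ (ll x) ^ A' := by
    have h1 := H.hzA'
    have h2 : 0 ≤ (a : ℝ) * z ^ a := by positivity
    linarith
  have haW : (1 + z ^ a) * a ≤ Real.log x := by
    have h1 : z ^ a * a ≤ (ll x) ^ A' * a := mul_le_mul_of_nonneg_right hWK (by linarith)
    have h2 : (1 : ℝ) * a ≤ (ll x) ^ A' * a := mul_le_mul_of_nonneg_right hK1 (by linarith)
    linarith only [hL, ha, hK1, hK3, haK, h1, h2]
  have hx1 : (1 : ℝ) < x := by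
    by_contra hcon
    push Not at hcon
    have := Real.log_nonpos (Nat.cast_nonneg x) hcon
    linarith only [hL, hK1, hK3, haK0, this]
  have hXpos : 0 < X := lt_of_lt_of_le (mul_pos (by linarith) (Real.exp_pos _)) H.leX
  have hM12 : 2 < M1 := by
    have hexp1 : (2 : ℝ) < Real.exp 1 := by
      have := Real.add_one_lt_exp (x := 1) (by norm_num)
      linarith
    have : (2 : ℝ) < M1 := lt_of_lt_of_le hexp1 H.M1ge
    exact_mod_cast this
  set hh : ℝ := z ^ a * a * Real.log 2 / (3 * Real.log x) with hhdef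
  have hhpos : 0 < hh := by
    have : 0 < Real.log 2 := Real.log_pos (by norm_num)
    positivity
  have hcl : ∀ n ∈ S, 2 ^ (Nat.clog 2 (m n) - 1) < m n ∧
      m n ≤ 2 * 2 ^ (Nat.clog 2 (m n) - 1) := by
    intro n hnS
    have h1 : 1 < m n := by
      have := hm1 n hnS
      omega
    have h2 := Nat.pow_pred_clog_lt_self (b := 2) one_lt_two h1
    have h3 := Nat.le_pow_clog (b := 2) one_lt_two (m n)
    have h4 : 0 < Nat.clog 2 (m n) := Nat.clog_pos one_lt_two h1
    refine ⟨h2, ?_⟩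
    rw [← pow_succ', Nat.sub_add_cancel h4]
    exact h3
  have hmaps : ∀ n ∈ S, Nat.clog 2 (m n) - 1 ∈ Finset.range x := by
    intro n hnS
    rw [Finset.mem_range]
    have h1 := (hcl n hnS).1
    have h2 : Nat.clog 2 (m n) - 1 < 2 ^ (Nat.clog 2 (m n) - 1) := Nat.lt_two_pow_self
    have h3 : m n ≤ m n * m n := Nat.le_mul_self _
    have h4 := hm2 n hnS
    omega
  rw [Finset.card_eq_sum_card_fiberwise hmaps]
  push_cast
  have hper : ∀ i ∈ Finset.range x,
      (((S.filter (fun n => Nat.clog 2 (m n) - 1 = i)).card : ℕ) : ℝ) ≤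
      D * (10 * C0) * (X / Real.log x) *
        ((1 + (z ^ a + (i : ℝ) * hh)) * Real.exp (-(z ^ a + (i : ℝ) * hh))) := by
    intro i _
    rcases Finset.eq_empty_or_nonempty (S.filter (fun n => Nat.clog 2 (m n) - 1 = i)) with
      he | ⟨n0, hn0⟩
    · rw [he, Finset.card_empty, Nat.cast_zero]
      have := H.D0
      positivity
    · rw [Finset.mem_filter] at hn0
      have h1 := hcl n0 hn0.1
      rw [hn0.2] at h1
      have h2 := TypeCAux.perM hc cov H hs hL h1.1 h1.2 (hm1 n0 hn0.1) (hm2 n0 hn0.1)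
        (S := S.filter (fun n => Nat.clog 2 (m n) - 1 = i))
        ((Finset.filter_subset _ _).trans hS) (by
          intro n hnS
          rw [Finset.mem_filter] at hnS
          have h3 := hcl n hnS.1
          rw [hnS.2] at h3
          exact ⟨m n, q n, hq n hnS.1, hn n hnS.1, h3.1, h3.2, hb n hnS.1⟩)
      have h4 : z ^ a * (1 + a * (Real.log ((2 ^ i : ℕ) : ℝ) / Real.log x) / 3) =
          z ^ a + (i : ℝ) * hh := by
        rw [hhdef]
        push_cast
        rw [Real.log_pow]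
        field_simp
      rw [h4] at h2
      exact h2
  refine (Finset.sum_le_sum hper).trans ?_
  rw [← Finset.mul_sum]
  have hsum := TypeCAux.sum_f hhpos (by linarith only [hW1] : (0 : ℝ) ≤ z ^ a) x
  refine (mul_le_mul_of_nonneg_left hsum ?_).trans ?_
  · have := H.D0
    positivity
  · exact TypeCAux.final_ineq ha hW1 hL0 haW H.D0 (by linarith) hXpos.le hhdef

end Pool.Agent.Helper8.TOT
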